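import Pool.Agent.Q61.MP0ch

set_option autoImplicit false

open MeasureTheory Q61.Sob Q61.QGrad
open scoped ContDiff

namespace Pool.Agent.Results.MP_0cf84d_an.StronglyNegativeThreshold

/-- Negative answer to Q2, in every dimension `n ≥ 2`, with `Ω` the unit ball and `μ ≡ 1`: there are bounded
`c > 0` and `h` such that (a) `(P_0)` has no solution `u ≤ 0`, (b) some `(P_lam)`, `lam > 0`, has one, and
the solution `u ≤ 0` of `(P_lam)` at the threshold `lam = λ̲` (it is unique, even among solutions of any sign)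
satisfies `u ≪ 0`. -/
theorem result (n : ℕ) (hn : 2 ≤ n) :
    ∃ c h : En n → ℝ,
      (∀ p : ENNReal, MemLp c p (volume.restrict (Metric.ball 0 1))) ∧
      (∀ p : ENNReal, MemLp h p (volume.restrict (Metric.ball 0 1))) ∧
      (∀ x ∈ Metric.ball (0 : En n) 1, 0 < c x) ∧
      ¬ HasNonposSolution (Metric.ball 0 1) c (fun _ => 1) h 0 ∧
      (∃ lam₀ : ℝ, 0 < lam₀ ∧ HasNonposSolution (Metric.ball 0 1) c (fun _ => 1) h lam₀) ∧
      0 < lamUnder (Metric.ball 0 1) c (fun _ => 1) h ∧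
      ∃ (u : En n → ℝ) (G : En n → En n),
        IsSolution (Metric.ball 0 1) (lamUnder (Metric.ball 0 1) c (fun _ => 1) h) c (fun _ => 1) h u G ∧
        ContDiff ℝ ∞ u ∧
        (∀ x ∈ closure (Metric.ball (0 : En n) 1), u x ≤ 0) ∧
        StronglyNegative (Metric.ball 0 1) c u ∧
        ∀ (u' : En n → ℝ) (G' : En n → En n),
          IsSolution (Metric.ball 0 1) (lamUnder (Metric.ball 0 1) c (fun _ => 1) h) c (fun _ => 1) h u' G' →
            ∀ᵐ x ∂(volume.restrict (Metric.ball (0 : En n) 1)), u' x = u x := by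
  have hn0 : 0 < n := by omega
  refine ⟨Q61.M0cf.c, Q61.M0cf.h, Q61.M0cf.c_memLp, Q61.M0cf.h_memLp, fun x hx => Q61.M0cf.c_pos hn0 hx,
    Q61.M0cf.no_below hn0 one_pos, ⟨1, one_pos, Q61.M0cf.has1⟩, ?_, fun x => -Q61.M0cf.v x,
    fun x => -gradient Q61.M0cf.v x, ?_, Q61.M0cf.v_smooth.neg, Q61.M0cf.nonpos0, Q61.M0cf.strong hn0, ?_⟩
  · rw [Q61.M0cf.lamUnder_eq hn0]; exact one_pos
  · rw [Q61.M0cf.lamUnder_eq hn0]; exact Q61.M0cf.sol0
  · intro u' G' hs
    rw [Q61.M0cf.lamUnder_eq hn0] at hs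
    exact Q61.M0cf.unique1 hn0 hs

end Pool.Agent.Results.MP_0cf84d_an.StronglyNegativeThreshold
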